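import Pool.Agent.helper31.RLS.Spec

set_option autoImplicit false

namespace Pool.Agent.RLS

open Finset

theorem SI_min (T : Finset ℕ) :
    ∑ p ∈ T, (if bel T p = ∅ then (1 : ℝ) else 0) = 1 - (if T = ∅ then (1 : ℝ) else 0) := by
  classical
  by_cases hT : T = ∅
  · subst hT
    simp
  · have hne : T.Nonempty := Finset.nonempty_iff_ne_empty.mpr hT
    rw [if_neg hT]
    have hiff : ∀ p ∈ T, (bel T p = ∅ ↔ p = T.min' hne) := by
      intro p hp
      constructor
      · intro hb
        by_contra hne'
        have hlt : T.min' hne < p :=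
          lt_of_le_of_ne (Finset.min'_le T p hp) (fun h => hne' h.symm)
        have hmem : T.min' hne ∈ bel T p :=
          Finset.mem_filter.mpr ⟨Finset.min'_mem T hne, hlt⟩
        rw [hb] at hmem
        simp at hmem
      · intro hb
        subst hb
        apply Finset.filter_eq_empty_iff.mpr
        intro q hq hlt
        exact absurd (Finset.min'_le T q hq) (not_le.mpr hlt)
    have : ∑ p ∈ T, (if bel T p = ∅ then (1 : ℝ) else 0) =
        ∑ p ∈ T, (if p = T.min' hne then (1 : ℝ) else 0) := by
      apply Finset.sum_congr rfl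
      intro p hp
      by_cases h : p = T.min' hne
      · rw [if_pos h, if_pos ((hiff p hp).mpr h)]
      · rw [if_neg h, if_neg (fun h' => h ((hiff p hp).mp h'))]
    rw [this, Finset.sum_ite_eq' T (T.min' hne) (fun _ => (1 : ℝ)),
      if_pos (Finset.min'_mem T hne)]
    ring

theorem SI_card {T : Finset ℕ} {p : ℕ} (hp : p ∈ T) : (bel T p).card < T.card := by
  apply Finset.card_lt_card
  refine ⟨Finset.filter_subset _ _, fun h => ?_⟩
  have := Finset.mem_filter.mp (h hp)
  exact absurd this.2 (lt_irrefl p)

theorem SI_main (h1 : BU_stmt) : ∀ (n : ℕ) (T : Finset ℕ), T.card ≤ n → ∀ L : ℝ,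
    (if T = ∅ then (1 : ℝ) else 0) ≤ SS true (fun _ => 1) L T ∧
    SS false (fun _ => 1) L T ≤ (if T = ∅ then (1 : ℝ) else 0) := by
  intro n
  induction n with
  | zero =>
    intro T hT L
    have hT0 : T = ∅ := Finset.card_eq_zero.mp (Nat.le_zero.mp hT)
    obtain ⟨ha, hb⟩ := h1 (fun _ => 1) L T
    subst hT0
    simp only [Finset.filter_empty, Finset.sum_empty, sub_zero] at ha hb
    rw [ha, hb]
    simp
  | succ n ih =>
    intro T hT L
    obtain ⟨ha, hb⟩ := h1 (fun _ => 1) L T
    have hmin := SI_min T
    have hih : ∀ p ∈ T, ∀ L' : ℝ,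
        (if bel T p = ∅ then (1 : ℝ) else 0) ≤ SS true (fun _ => 1) L' (bel T p) ∧
        SS false (fun _ => 1) L' (bel T p) ≤ (if bel T p = ∅ then (1 : ℝ) else 0) := by
      intro p hp L'
      apply ih
      have := SI_card hp
      omega
    constructor
    · rw [ha]
      have h2 : ∑ p ∈ T.filter (fun p : ℕ => 3 * Real.log p < L),
          (1 : ℝ) * SS false (fun _ => 1) (L - Real.log p) (bel T p) ≤
          ∑ p ∈ T, (if bel T p = ∅ then (1 : ℝ) else 0) := by
        calc ∑ p ∈ T.filter (fun p : ℕ => 3 * Real.log p < L),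
            (1 : ℝ) * SS false (fun _ => 1) (L - Real.log p) (bel T p)
            ≤ ∑ p ∈ T.filter (fun p : ℕ => 3 * Real.log p < L),
              (if bel T p = ∅ then (1 : ℝ) else 0) := by
              apply Finset.sum_le_sum
              intro p hp
              rw [one_mul]
              exact (hih p (Finset.mem_filter.mp hp).1 _).2
          _ ≤ ∑ p ∈ T, (if bel T p = ∅ then (1 : ℝ) else 0) := by
              apply Finset.sum_le_sum_of_subset_of_nonneg (Finset.filter_subset _ _)
              intro p _ _
              split_ifs <;> norm_num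
      linarith
    · rw [hb]
      have h2 : ∑ p ∈ T, (if bel T p = ∅ then (1 : ℝ) else 0) ≤
          ∑ p ∈ T, (1 : ℝ) * SS true (fun _ => 1) (L - Real.log p) (bel T p) := by
        apply Finset.sum_le_sum
        intro p hp
        rw [one_mul]
        exact (hih p hp _).1
      linarith

theorem SI_SS (b : Bool) (L : ℝ) (T : Finset ℕ) :
    SS b (fun _ => 1) L T = ∑ K ∈ T.powerset, lam b L K := by
  unfold SS
  apply Finset.sum_congr rfl
  intro K _
  rw [Finset.prod_const_one, mul_one]

theorem SI (h1 : BU_stmt) : SI_stmt := by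
  intro L T
  obtain ⟨ha, hb⟩ := SI_main h1 T.card T le_rfl L
  rw [SI_SS] at ha hb
  refine ⟨?_, ?_, hb⟩
  · refine le_trans ?_ ha
    split_ifs <;> norm_num
  · intro hT
    rw [if_pos hT] at ha
    exact ha

end Pool.Agent.RLS
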